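import Mathlib
import Pool.Agent.H443R2.AB.ATBasis

set_option autoImplicit false

namespace Pool.Agent.Results.MP_16de82_co.DisjointBasis

open Pool.Agent.H443R2.AB

universe u

/-- Among the columns of any `2p-1` invertible matrices over a field of characteristic `p` there are
disjoint column sets `C` (an invertible matrix) and `A` (an Alon-Tarsi basis). -/
theorem result (F : Type u) [Field F] (p : ℕ) (hp : p.Prime) (hF : CharP F p)
    (n : ℕ) (B : Fin (2 * p - 1) → Matrix (Fin n) (Fin n) F) (hB : ∀ i, (B i).det ≠ 0) :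
    ∃ e : (Fin n ⊕ (Fin (p - 1) × Fin n)) ↪ (Fin (2 * p - 1) × Fin n),
      (Matrix.of fun (r k : Fin n) =>
          B (e (Sum.inl k)).1 r (e (Sum.inl k)).2).det ≠ 0 ∧
      (Matrix.of fun (x y : Fin (p - 1) × Fin n) =>
          B (e (Sum.inr y)).1 x.2 (e (Sum.inr y)).2).permanent ≠ 0 := by
  classical
  have : Fact p.Prime := ⟨hp⟩
  have h2 : 2 ≤ p := hp.two_le
  have hlt : 2 * p - 2 < 2 * p - 1 := by omega
  let ι : Fin (2 * p - 2) → Fin (2 * p - 1) := fun j => ⟨j, by omega⟩
  have hι : Function.Injective ι := fun i j h => by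
    simp only [ι, Fin.mk.injEq] at h
    exact Fin.ext h
  let l : Fin (2 * p - 1) := ⟨2 * p - 2, hlt⟩
  have hne : ∀ j, ι j ≠ l := fun j h => by
    simp only [ι, l, Fin.mk.injEq] at h
    have := j.2
    omega
  have hli : ∀ j, LinearIndependent F (fun c : Fin n => fun r : Fin n => B (ι j) r c) := by
    intro j
    have h1 : IsUnit (B (ι j)).transpose := by
      rw [Matrix.isUnit_iff_isUnit_det, Matrix.det_transpose]
      exact isUnit_iff_ne_zero.mpr (hB (ι j))
    exact Matrix.linearIndependent_rows_iff_isUnit.mpr h1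
  obtain ⟨f, hf, hper⟩ := at_basis_of_good p hp F n
    (fun i (x : Fin (2 * p - 2) × Fin n) => B (ι x.1) i x.2)
    (good_of_bases p (F := AlgebraicClosure F)
        (fun j c r => algebraMap F (AlgebraicClosure F) (B (ι j) r c))
        (fun j => a6_linInd_map _ (hli j)))
  refine ⟨⟨Sum.elim (fun k => (l, k)) (fun y => (ι (f y).1, (f y).2)), ?_⟩, ?_, ?_⟩
  · rintro (k | y) (k' | y') h
    · simp only [Sum.elim_inl, Prod.mk.injEq, true_and] at h
      rw [h]
    · simp only [Sum.elim_inl, Sum.elim_inr, Prod.mk.injEq] at h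
      exact absurd h.1.symm (hne _)
    · simp only [Sum.elim_inl, Sum.elim_inr, Prod.mk.injEq] at h
      exact absurd h.1 (hne _)
    · simp only [Sum.elim_inr, Prod.mk.injEq] at h
      have : f y = f y' := Prod.ext (hι h.1) h.2
      rw [hf this]
  · exact hB l
  · exact hper

end Pool.Agent.Results.MP_16de82_co.DisjointBasis
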